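import Pool.Agent.Helper39.CT.NFG

/-!
Near cells of classes of three known orders `≥ 10` with thin labels. Part 1: the runs of the
program, the exact values `R_m` are enclosed by a table, and the cover of the runs by forms of the
types `two`, `three`, `oth` (`full` has the form of `two`).
-/

set_option autoImplicit false
set_option exponentiation.threshold 4000
noncomputable section
namespace Pool.Agent.Helper39.D0

open Pool.Agent.Helper81.MIT
open Pool.Agent.Helper86.CX (Hm ev)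
open Pool.Agent.Helper6.MONO (V3 RV2 TCert mm kk Kp Rb RMb omS zw LNI_mm RJ_one RJ_two)
open Pool.Agent.Helper21.SUP (GS DG gM DG_nx)
open Pool.Agent.Helper21.SUP renaming nx → nxs
open Pool.Agent.Helper39.SLT (T4 ML)
open Pool.Agent.Helper6.PRG (gsF giS gsF_giS)
open Pool.Agent.Helper39.NCL (WN wS wS_next)
open Pool.Agent.Helper21.KRN (RI PI TProg eT oT RunIn KResT kap)
open Pool.Agent.Helper48.NCT (IT NearC hasIT hasIT_iff)
open Pool.Agent.Helper39.NFT (Ch chain_of)
open Complex ComplexConjugate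

variable {p q r : ℕ}

/-! ### the runs -/

/-- the interval for the run of `m ≥ 4` letters in the star of the edge `e`: the table has the
intervals of `2 ^ 48 R_3, 2 ^ 48 R_4, …` -/
def rIv (RL : List (List (ℕ × ℕ))) (e m : ℕ) : ℕ × ℕ := (RL.getD e []).getD (m - 4) (0, 0)

/-- the table is right -/
def RTab (p q r : ℕ) (RL : List (List (ℕ × ℕ))) : Prop :=
  ∀ i j : Fin 3, i ≠ j → ∀ m, 4 ≤ m → m ≤ mm p q r i j →
    ((rIv RL (edN i j) m).1 : ℝ) ≤ 2 ^ 48 * Rb (mm p q r i j) (m - 1) ∧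
      2 ^ 48 * Rb (mm p q r i j) (m - 1) ≤ ((rIv RL (edN i j) m).2 : ℝ) ∧
      (rIv RL (edN i j) m).2 ≤ 2 ^ 50

/-- the run of `m` letters from the state `s`, source form `k'`, target form `k`, is in the
program -/
def hasD (RL : List (List (ℕ × ℕ))) (G : TProg) (s : GS) (m k k' : ℕ) : Bool :=
  if m = 2 then hasRT (oT G (giS (nxs s 2))) k (RI.t2 (edN s.1 s.2.1)) k'
  else if m = 3 then hasRT (eT G (giS (nxs s 3))) k (RI.t3 (edN s.1 s.2.1)) k'
  else if m % 2 = 1 then
    hasRT (eT G (giS (nxs s m))) k (RI.lr (edN s.1 s.2.1) (rIv RL (edN s.1 s.2.1) m).1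
      (rIv RL (edN s.1 s.2.1) m).2) k'
  else
    hasRT (oT G (giS (nxs s m))) k (RI.lr (edN s.1 s.2.1) (rIv RL (edN s.1 s.2.1) m).1
      (rIv RL (edN s.1 s.2.1) m).2) k'

/-- ONE RUN -/
theorem run_ofD (hp : 3 ≤ p) (hq : 3 ≤ q) (hr : 3 ≤ r) {RL : List (List (ℕ × ℕ))}
    (hB : RTab p q r RL) {z : ℂ} (hz : z ≠ 0) (hz1 : z + 1 ≠ 0) {K : ℕ → Hm ℝ} {G : TProg}
    (hK : KResT K (kR p q r) z G) {s : GS} (h : DG s) {m : ℕ} (hm2 : 2 ≤ m)
    (hm : m ≤ mm p q r s.1 s.2.1) {k k' : ℕ} (hb : hasD RL G s m k k' = true)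
    (v : Fin 3 → ℂ) (hv : 0 < ev (K k') v) :
    0 < ev (K k) ((RMb p q r s m (zw z)).mulVec v) := by
  have hM3 := LNI_mm hp hq hr _ _ h.1
  unfold hasD at hb
  have hkap : kk p q r s.1 s.2.1 = kap (kR p q r) (edN s.1 s.2.1) :=
    (kap_edN p q r _ _ h.1).symm
  by_cases h2 : m = 2
  · subst h2
    rw [if_pos rfl] at hb
    exact core_even hz hz1 hK h rfl hb ⟨hkap, RJ_one _ hM3⟩ v hv
  · rw [if_neg h2] at hb
    by_cases h3 : m = 3
    · subst h3
      rw [if_pos rfl] at hb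
      exact core_odd hz hz1 hK h rfl hb ⟨hkap, RJ_two _ hM3⟩ v hv
    · rw [if_neg h3] at hb
      obtain ⟨x1, x2, x3⟩ := hB _ _ h.1 m (by omega) hm
      by_cases hodd : m % 2 = 1
      · rw [if_pos hodd] at hb
        exact core_odd hz hz1 hK h hodd hb ⟨hkap, x1, x2, x3⟩ v hv
      · rw [if_neg hodd] at hb
        exact core_even hz hz1 hK h (by omega) hb ⟨hkap, x1, x2, x3⟩ v hv

/-! ### the forms -/

/-- the types which have a form -/
def ty3 : List T4 := [T4.two, T4.three, T4.oth]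

/-- the type whose form is used -/
def fc : T4 → T4
  | T4.two => T4.two
  | T4.three => T4.three
  | T4.oth => T4.oth
  | T4.full => T4.two

/-- the place of a type -/
def tpD : T4 → ℕ
  | T4.two => 0
  | T4.three => 1
  | T4.oth => 2
  | T4.full => 0

/-- the number of a form -/
def kD (s : GS) (T : T4) : ℕ := 3 * giS s + tpD T

theorem fc_mem (T : T4) : fc T ∈ ty3 := by
  cases T <;> simp [fc, ty3]

theorem kD_fc (s : GS) (T : T4) : kD s (fc T) = kD s T := by
  cases T <;> rfl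

theorem fc_ne {T X : T4} (h2 : X ≠ T4.two) (h : T ≠ X) : fc T ≠ X := by
  cases T with
  | two => exact h
  | three => exact h
  | oth => exact h
  | full => exact fun e => h2 e.symm

theorem fc_of_ne {T : T4} (h : T ≠ T4.full) : fc T = T := by
  cases T with
  | two => rfl
  | three => rfl
  | oth => rfl
  | full => exact absurd rfl h

theorem ne_full_of_low {M : ℕ} {T : T4} (h : T.low M ≤ 2) : T ≠ T4.full := by
  rintro rfl
  have h2 : (3 : ℕ) ≤ 2 := h
  omega

/-! ### the cover -/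

/-- the runs of at least four letters -/
def cov4D (p q r : ℕ) (RL : List (List (ℕ × ℕ))) (G : TProg) (i : ℕ) : Bool :=
  (List.range (mm p q r (gsF i).1 (gsF i).2.1 + 1)).all fun m =>
    if 4 ≤ m then ty3.all fun T =>
      hasD RL G (gsF i) m
        (kD (nxs (gsF i) m) (T4.next (mm p q r (gsF i).1 (gsF i).2.1) m)) (kD (gsF i) T)
    else true

/-- the runs of three letters, single -/
def cov3D (RL : List (List (ℕ × ℕ))) (G : TProg) (i : ℕ) : Bool :=
  ty3.all fun T => hasD RL G (gsF i) 3 (kD (nxs (gsF i) 3) T4.three) (kD (gsF i) T)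

/-- the runs of two letters, single -/
def cov2D (RL : List (List (ℕ × ℕ))) (G : TProg) (i : ℕ) : Bool :=
  ty3.all fun T => hasD RL G (gsF i) 2 (kD (nxs (gsF i) 2) T4.two) (kD (gsF i) T)

/-- the runs of three letters with a family, types other than `three` -/
def cov3AD (RL : List (List (ℕ × ℕ))) (G : TProg) (il : List IT) (W : WN) (i : ℕ) : Bool :=
  ty3.all fun T =>
    if T = T4.three then true else
      if i < 3 then hasIT il W.e (kD (gsF i) T) else
        hasD RL G (gsF i) 3 (kD (nxs (gsF i) 3) T4.three) (kD (gsF i) T) &&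
          hasD RL G (gsF i) 3 W.e (kD (gsF i) T)

/-- the exit tests of a family at its base state -/
def covXD (RL : List (List (ℕ × ℕ))) (G : TProg) (il : List IT) (W : WN) (i : ℕ) : Bool :=
  hasIT il (kD (gsF i) T4.three) W.x &&
    (hasD RL G (gsF i) 3 (kD (nxs (gsF i) 3) T4.three) W.x &&
      hasD RL G (gsF i) 3 (kD (nxs (gsF i) 3) T4.three) W.e)

/-- the runs of three letters -/
def covAD (RL : List (List (ℕ × ℕ))) (G : TProg) (il : List IT) (W : WN) (i : ℕ) : Bool :=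
  if W.f = true then cov3AD RL G il W i && (if i < 3 then covXD RL G il W i else true)
  else cov3D RL G i

/-- the runs from all states; `gb`: the runs of two letters are covered otherwise -/
def coverD (p q r : ℕ) (gb : Bool) (W0 W1 W2 : WN) (RL : List (List (ℕ × ℕ))) (G : TProg)
    (il : List IT) : Bool :=
  (List.range 6).all fun i => (gb || cov2D RL G i) &&
    (covAD RL G il (wS W0 W1 W2 i) i && cov4D p q r RL G i)

/-- the chain for the runs of `x` letters at a state, target type `X` -/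
def covChD (x : ℕ) (X : T4) (RL : List (List (ℕ × ℕ))) (G : TProg) (il : List IT) (c : Ch)
    (i : ℕ) : Bool :=
  (ty3.all fun T =>
    if T ≠ X then hasD RL G (gsF i) x (c.fn 0 (giS (nxs (gsF i) x))) (kD (gsF i) T) else true) &&
  (List.range (c.S + 1)).all fun j =>
    hasD RL G (gsF i) x (c.fn (min (j + 1) c.S) (giS (nxs (gsF i) x))) (c.fn j i) &&
      (c.fn j i == kD (gsF i) X || hasIT il (kD (gsF i) X) (c.fn j i))

def coverChD (x : ℕ) (X : T4) (RL : List (List (ℕ × ℕ))) (G : TProg) (il : List IT) (c : Ch) :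
    Bool :=
  (List.range 6).all fun i => covChD x X RL G il c i

/-- the single runs of two letters at a state, types other than `two` -/
def covHD (RL : List (List (ℕ × ℕ))) (G : TProg) (s : GS) : Bool :=
  ty3.all fun T => if T ≠ T4.two then hasD RL G s 2 (kD (nxs s 2) T4.two) (kD s T) else true

/-! ### the parts at a state -/

/-- the parts of `coverD` at a state of a class -/
structure AtD (p q r : ℕ) (gb : Bool) (W : WN) (RL : List (List (ℕ × ℕ))) (G : TProg)
    (il : List IT) (s : GS) : Prop where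
  r4 : ∀ T : T4, ∀ m, 4 ≤ m → m ≤ mm p q r s.1 s.2.1 →
    hasD RL G s m (kD (nxs s m) (T4.next (mm p q r s.1 s.2.1) m)) (kD s T) = true
  r2 : gb = false → ∀ T : T4, hasD RL G s 2 (kD (nxs s 2) T4.two) (kD s T) = true
  r3 : W.f = false → ∀ T : T4, hasD RL G s 3 (kD (nxs s 3) T4.three) (kD s T) = true
  eb : W.f = true → giS s < 3 → ∀ T : T4, T ≠ T4.three → hasIT il W.e (kD s T) = true
  en : W.f = true → ¬ giS s < 3 → ∀ T : T4, T ≠ T4.three →
    hasD RL G s 3 (kD (nxs s 3) T4.three) (kD s T) = true ∧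
    hasD RL G s 3 W.e (kD s T) = true
  x0 : W.f = true → giS s < 3 → hasIT il (kD s T4.three) W.x = true ∧
    hasD RL G s 3 (kD (nxs s 3) T4.three) W.x = true ∧
    hasD RL G s 3 (kD (nxs s 3) T4.three) W.e = true

theorem coverD_at {gb : Bool} {W0 W1 W2 : WN} {RL : List (List (ℕ × ℕ))} {G : TProg}
    {il : List IT} (h : coverD p q r gb W0 W1 W2 RL G il = true) {s : GS} (hs : DG s) :
    AtD p q r gb (wS W0 W1 W2 (giS s)) RL G il s := by
  obtain ⟨e, hi⟩ := gsF_giS s hs
  unfold coverD at h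
  rw [List.all_eq_true] at h
  have h3 := h (giS s) (List.mem_range.2 hi)
  simp only [Bool.and_eq_true, Bool.or_eq_true] at h3
  obtain ⟨c2, cA, c4⟩ := h3
  refine ⟨?_, ?_, ?_, ?_, ?_, ?_⟩
  · intro T m h4 hm
    unfold cov4D at c4
    rw [e, List.all_eq_true] at c4
    have h5 := c4 m (List.mem_range.2 (by omega))
    rw [if_pos h4, List.all_eq_true] at h5
    have h6 := h5 _ (fc_mem T)
    rwa [kD_fc] at h6
  · intro hgb T
    have h2 : cov2D RL G (giS s) = true := by
      rcases c2 with c2 | c2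
      · rw [hgb] at c2
        exact absurd c2 (by decide)
      · exact c2
    unfold cov2D at h2
    rw [e, List.all_eq_true] at h2
    have h5 := h2 _ (fc_mem T)
    rwa [kD_fc] at h5
  · intro hf T
    unfold covAD at cA
    rw [if_neg (by rw [hf]; decide)] at cA
    unfold cov3D at cA
    rw [e, List.all_eq_true] at cA
    have h5 := cA _ (fc_mem T)
    rwa [kD_fc] at h5
  · intro hf hb T hT3
    unfold covAD at cA
    rw [if_pos hf, Bool.and_eq_true] at cA
    have h1 := cA.1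
    unfold cov3AD at h1
    rw [e, List.all_eq_true] at h1
    have h2 := h1 _ (fc_mem T)
    rw [if_neg (fc_ne (by decide) hT3), if_pos hb, kD_fc] at h2
    exact h2
  · intro hf hb T hT3
    unfold covAD at cA
    rw [if_pos hf, Bool.and_eq_true] at cA
    have h1 := cA.1
    unfold cov3AD at h1
    rw [e, List.all_eq_true] at h1
    have h2 := h1 _ (fc_mem T)
    rw [if_neg (fc_ne (by decide) hT3), if_neg hb, kD_fc, Bool.and_eq_true] at h2
    exact h2
  · intro hf hb
    unfold covAD at cA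
    rw [if_pos hf, Bool.and_eq_true, if_pos hb] at cA
    have h1 := cA.2
    unfold covXD at h1
    rw [e] at h1
    simp only [Bool.and_eq_true] at h1
    exact h1

/-! ### from the tests to the inclusions -/

/-- the runs of two letters, all powers -/
def HBD (p q r : ℕ) (z : ℂ) (K : ℕ → Hm ℝ) : Prop :=
  ∀ s, DG s → ∀ T : T4, T.ok (ML p q r s) → T.low (ML p q r s) ≤ 2 →
    T ≠ T4.two → ∀ k : ℕ, ∀ v, 0 < ev (K (kD s T)) v →
      0 < ev (K (kD (Pool.Agent.Helper6.MONO.sD s (List.replicate (k + 1) 2)) T4.two))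
        ((gM (RMb p q r) s (List.replicate (k + 1) 2) (zw z)).mulVec v)

/-- FROM THE TESTS OF A NEAR CELL AT A POINT TO THE INCLUSIONS OF THE FORMS -/
theorem nearD_of (hp : 3 ≤ p) (hq : 3 ≤ q) (hr : 3 ≤ r) {z : ℂ} (hz : z ≠ 0) (hz1 : z + 1 ≠ 0)
    {K : ℕ → Hm ℝ} {G : TProg} (hK : KResT K (kR p q r) z G) {gb : Bool} {W0 W1 W2 : WN}
    {RL : List (List (ℕ × ℕ))} (hR : RTab p q r RL) {il : List IT}
    (hc : coverD p q r gb W0 W1 W2 RL G il = true)
    (hI : ∀ x ∈ il, ∀ y ∈ x.s, ∀ v, 0 < ev (K y.k) v → 0 < ev (K x.k) v)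
    (hfam : ∀ s, DG s → giS s < 3 → (wS W0 W1 W2 (giS s)).f = true → ∀ m : ℕ, ∀ v,
      0 < ev (K (wS W0 W1 W2 (giS s)).e) v → 0 < ev (K (wS W0 W1 W2 (giS s)).x)
        ((gM (RMb p q r) s (List.replicate 2 3) (zw z) ^ (m + 1)).mulVec v))
    (hB : gb = true → HBD p q r z K) :
    NearC p q r (zw z) (fun s T => K (kD s T)) gb (fun s => (wS W0 W1 W2 (giS s)).f)
      (fun s => K (wS W0 W1 W2 (giS s)).e) (fun s => K (wS W0 W1 W2 (giS s)).x) := by
  have at' := fun {s : GS} (hs : DG s) => coverD_at hc hs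
  have hRn : ∀ {s : GS}, DG s → ∀ {m : ℕ}, 2 ≤ m → m ≤ mm p q r s.1 s.2.1 → ∀ {k k' : ℕ},
      hasD RL G s m k k' = true → ∀ v : Fin 3 → ℂ,
        0 < ev (K k') v → 0 < ev (K k) ((RMb p q r s m (zw z)).mulVec v) :=
    fun {s} h {m} h2 hm {k k'} hb v hv => run_ofD hp hq hr hR hz hz1 hK h h2 hm hb v hv
  have hId : ∀ {k k' : ℕ}, hasIT il k k' = true → ∀ v : Fin 3 → ℂ, 0 < ev (K k') v →
      0 < ev (K k) v := by
    intro k k' hb v hv
    obtain ⟨x, hx, hk, y, hy, hk'⟩ := hasIT_iff hb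
    rw [← hk]
    rw [← hk'] at hv
    exact hI x hx y hy v hv
  have h3m : ∀ s, DG s → 3 ≤ mm p q r s.1 s.2.1 := fun s h => LNI_mm hp hq hr _ _ h.1
  refine ⟨?_, ?_, ?_, ?_, ?_, ?_, ?_, ?_, ?_, ?_⟩
  · intro s hs T _ m h4 hm v hv
    exact hRn hs (by omega) hm ((at' hs).r4 T m h4 hm) v hv
  · intro hgb s hs T _ _ v hv
    have := h3m s hs
    exact hRn hs le_rfl (by omega) ((at' hs).r2 hgb T) v hv
  · intro s hs hf T _ v hv
    exact hRn hs (by norm_num) (h3m s hs) ((at' hs).r3 hf T) v hv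
  · intro s hs
    rw [wS_next s hs]
  · intro s hs hf hb T _ hT3 v hv
    exact hId ((at' hs).eb hf hb T hT3) v hv
  · intro s hs hf hb T _ hT3 v hv
    obtain ⟨h1, h2⟩ := (at' hs).en hf hb T hT3
    refine ⟨hRn hs (by norm_num) (h3m s hs) h1 v hv, ?_⟩
    rw [wS_next s hs]
    exact hRn hs (by norm_num) (h3m s hs) h2 v hv
  · intro s hs hf hb v hv
    obtain ⟨h1, h2, -⟩ := (at' hs).x0 hf hb
    exact ⟨hId h1 v hv, hRn hs (by norm_num) (h3m s hs) h2 v hv⟩
  · intro s hs hf hb v hv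
    obtain ⟨-, -, h3⟩ := (at' hs).x0 hf hb
    exact hRn hs (by norm_num) (h3m s hs) h3 v hv
  · intro s hs hf hb m v hv
    exact hfam s hs hb hf m v hv
  · intro hgb s hs T hT hl hT2 k v hv
    exact hB hgb s hs T hT hl hT2 k v hv

/-- the conclusion of a chain -/
def HXD (x : ℕ) (X : T4) (p q r : ℕ) (z : ℂ) (K : ℕ → Hm ℝ) : Prop :=
  ∀ s, DG s → ∀ T : T4, (X = T4.two → T ≠ T4.full) → T ≠ X → ∀ k : ℕ, ∀ v,
    0 < ev (K (kD s T)) v →
      0 < ev (K (kD (Pool.Agent.Helper6.MONO.sD s (List.replicate (k + 1) x)) X))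
        ((gM (RMb p q r) s (List.replicate (k + 1) x) (zw z)).mulVec v)

/-- THE REPEATED RUNS THROUGH A CHAIN -/
theorem hXD_of_ch {x : ℕ} {X : T4} (x2 : 2 ≤ x) (x3 : x ≤ 3) (hp : 3 ≤ p) (hq : 3 ≤ q)
    (hr : 3 ≤ r) {z : ℂ} (hz : z ≠ 0) (hz1 : z + 1 ≠ 0) {K : ℕ → Hm ℝ} {G : TProg}
    (hK : KResT K (kR p q r) z G) {RL : List (List (ℕ × ℕ))} (hRT : RTab p q r RL)
    {il : List IT} {c : Ch} (hc : coverChD x X RL G il c = true)
    (hI : ∀ x ∈ il, ∀ y ∈ x.s, ∀ v, 0 < ev (K y.k) v → 0 < ev (K x.k) v) :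
    HXD x X p q r z K := by
  have h3m : ∀ s, DG s → 3 ≤ mm p q r s.1 s.2.1 := fun s h => LNI_mm hp hq hr _ _ h.1
  have hR : ∀ {s : GS}, DG s → ∀ {k k' : ℕ}, hasD RL G s x k k' = true → ∀ v : Fin 3 → ℂ,
      0 < ev (K k') v → 0 < ev (K k) ((RMb p q r s x (zw z)).mulVec v) :=
    fun {s} h {k k'} hb v hv => run_ofD hp hq hr hRT hz hz1 hK h x2 (x3.trans (h3m s h)) hb v hv
  have hId : ∀ {k k' : ℕ}, hasIT il k k' = true → ∀ v : Fin 3 → ℂ, 0 < ev (K k') v →
      0 < ev (K k) v := by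
    intro k k' hb v hv
    obtain ⟨x, hx, hk, y, hy, hk'⟩ := hasIT_iff hb
    rw [← hk]
    rw [← hk'] at hv
    exact hI x hx y hy v hv
  have at' : ∀ s, DG s → (∀ T : T4, (X = T4.two → T ≠ T4.full) → T ≠ X →
      hasD RL G s x (c.fn 0 (giS (nxs s x))) (kD s T) = true) ∧ ∀ j, j ≤ c.S →
      hasD RL G s x (c.fn (min (j + 1) c.S) (giS (nxs s x))) (c.fn j (giS s)) = true ∧
      (c.fn j (giS s) = kD s X ∨ hasIT il (kD s X) (c.fn j (giS s)) = true) := by
    intro s hs
    obtain ⟨e, hi⟩ := gsF_giS s hs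
    unfold coverChD at hc
    rw [List.all_eq_true] at hc
    have h3 := hc (giS s) (List.mem_range.2 hi)
    unfold covChD at h3
    rw [e, Bool.and_eq_true] at h3
    refine ⟨?_, ?_⟩
    · intro T hf hT2
      have h4 := h3.1
      rw [List.all_eq_true] at h4
      have h5 := h4 _ (fc_mem T)
      have h6 : fc T ≠ X := by
        by_cases hX : X = T4.two
        · rw [fc_of_ne (hf hX)]
          exact hT2
        · exact fc_ne hX hT2
      rw [if_pos h6, kD_fc] at h5
      exact h5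
    · intro j hj
      have h4 := h3.2
      rw [List.all_eq_true] at h4
      have h5 := h4 j (List.mem_range.2 (by omega))
      rw [Bool.and_eq_true, Bool.or_eq_true, beq_iff_eq] at h5
      exact h5
  intro s hs T hf hT2 k v hv
  exact chain_of (p := p) (q := q) (r := r) (w := zw z) (x := x)
    (F := fun s => {v : Fin 3 → ℂ | ∃ j, j ≤ c.S ∧ 0 < ev (K (c.fn j (giS s))) v})
    (T := fun s => {v : Fin 3 → ℂ | 0 < ev (K (kD s X)) v})
    (fun u hu v hv => by
      obtain ⟨j, hj, hv⟩ := hv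
      exact ⟨min (j + 1) c.S, min_le_right _ _, hR hu ((at' u hu).2 j hj).1 v hv⟩)
    (fun u hu v hv => by
      obtain ⟨j, hj, hv⟩ := hv
      rcases ((at' u hu).2 j hj).2 with h | h
      · rw [h] at hv
        exact hv
      · exact hId h v hv)
    hs (v := v) ⟨0, Nat.zero_le _, hR hs ((at' s hs).1 T hf hT2) v hv⟩ k

end Pool.Agent.Helper39.D0
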