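import Pool.Agent.Helper39.D0.D1

/-!
Near cells of classes of three known orders `≥ 10` with thin labels. Part 2: the certificates of
the points.
-/

set_option autoImplicit false
set_option exponentiation.threshold 4000
noncomputable section
namespace Pool.Agent.Helper39.D0

open Pool.Agent.Helper81.MIT
open Pool.Agent.Helper86.CX (Hm ev ev_CK)
open Pool.Agent.Helper86.CT (LT2)
open Pool.Agent.Helper6.MONO (V3 RV2 TCert mm kk Kp RMb omS zw LNI_mm DYm Y0 sD)
open Pool.Agent.Helper6.MONO.QTR (V0 e0)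
open Pool.Agent.Helper6.MTC (FCert RK NegD DYm_CM)
open Pool.Agent.Helper6.MID (oZ oZ_omS UY_vpq V0_vpq)
open Pool.Agent.Helper21.SUP (GS DG gM DG_nx)
open Pool.Agent.Helper21.SUP renaming nx → nxs
open Pool.Agent.Helper39.SLT (T4 ML typ_cert)
open Pool.Agent.Helper6.PRG (gsF giS gsF_giS)
open Pool.Agent.Helper39.NCL (WN wS)
open Pool.Agent.Helper21.KRN (TProg KResT PtR rT)
open Pool.Agent.Helper48.NCT (IT NearC)
open Pool.Agent.Helper39.NFT (Ch slitT_of CBT)
open Complex ComplexConjugate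

variable {p q r : ℕ}

/-! ### reference vectors, static tests, slit tests -/

/-- all reference tests -/
def covRD (G : TProg) : Bool :=
  (List.range 6).all fun i => ty3.all fun T => (rT G i).any fun x => x == kD (gsF i) T

/-- all forms are in the list of the static tests -/
def covTD (l : List ℕ) : Bool :=
  (List.range 6).all fun i => ty3.all fun T => l.any fun k => k == kD (gsF i) T

/-- all slit tests -/
def covLD (a b c : Lb) (l : List LT2) : Bool :=
  (List.range 6).all fun i =>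
    hasLT (lbE a b c (edN (gsF i).1 (gsF i).2.1)) l (kD (gsF i) T4.two) &&
      hasLT (lbE a b c (edN (gsF i).1 (gsF i).2.1)) l (kD (gsF i) T4.three)

theorem covRD_at {G : TProg} (h : covRD G = true) {s : GS} (hs : DG s) (T : T4) :
    kD s T ∈ rT G (giS s) := by
  obtain ⟨e, hi⟩ := gsF_giS s hs
  unfold covRD at h
  rw [List.all_eq_true] at h
  have h3 := h (giS s) (List.mem_range.2 hi)
  rw [List.all_eq_true] at h3
  have h4 := h3 _ (fc_mem T)
  rw [List.any_eq_true] at h4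
  obtain ⟨x, hx, h6⟩ := h4
  rw [e, kD_fc, beq_iff_eq] at h6
  rwa [← h6]

theorem covTD_at {l : List ℕ} (h : covTD l = true) {s : GS} (hs : DG s) (T : T4) :
    kD s T ∈ l := by
  obtain ⟨e, hi⟩ := gsF_giS s hs
  unfold covTD at h
  rw [List.all_eq_true] at h
  have h3 := h (giS s) (List.mem_range.2 hi)
  rw [List.all_eq_true] at h3
  have h4 := h3 _ (fc_mem T)
  rw [List.any_eq_true] at h4
  obtain ⟨x, hx, h6⟩ := h4
  rw [e, kD_fc, beq_iff_eq] at h6
  rwa [← h6]

theorem covLD_at {a b c : Lb} {l : List LT2} (h : covLD a b c l = true) {s : GS} (hs : DG s)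
    {K : ℕ → Hm ℝ} (hK : SlitT p q r a b c K l) :
    SlitOK (K (kD s T4.two)) (kk p q r s.1 s.2.1) ∧
      SlitOK (K (kD s T4.three)) (kk p q r s.1 s.2.1) := by
  obtain ⟨e, hi⟩ := gsF_giS s hs
  unfold covLD at h
  rw [List.all_eq_true] at h
  have h3 := h (giS s) (List.mem_range.2 hi)
  rw [e, Bool.and_eq_true] at h3
  have key : ∀ k, hasLT (lbE a b c (edN s.1 s.2.1)) l k = true →
      SlitOK (K k) (kk p q r s.1 s.2.1) := by
    intro k hk
    unfold hasLT at hk
    rw [List.any_eq_true] at hk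
    obtain ⟨x, hx, h6⟩ := hk
    rw [Bool.and_eq_true, beq_iff_eq] at h6
    rw [← h6.1]
    exact hK x hx _ _ hs.1 h6.2
  exact ⟨key _ h3.1, key _ h3.2⟩

/-- everything of the certificate except the runs -/
theorem fcertD {z : ℂ} (hz : z ≠ 0) (hz1 : z + 1 ≠ 0) {K : ℕ → Hm ℝ}
    {G : TProg} (hK : KResT K (kR p q r) z G) (h4p : ∀ s, DG s → 4 ≤ ML p q r s)
    (hR : covRD G = true) {κ M : ℝ} {sl : List ℕ} (hs : covTD sl = true)
    (neg : ∀ k ∈ sl, NegD κ (K k))
    (bd : ∀ k, |(K k).a| ≤ M ∧ ‖(K k).x‖ ≤ M ∧ ‖(K k).y‖ ≤ M)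
    {a b c : Lb} {le : List LT2} (hL : covLD a b c le = true) (slit : SlitT p q r a b c K le) :
    FCert V0 e0 p q r κ M (zw z) (fun s T => K (kD s T)) := by
  have hom := fun s hs => oZ_omS (p := p) (q := q) (r := r) hz hz1 s hs
  refine ⟨fun s h T _ => neg _ (covTD_at hs h T), fun s h T hT => (bd _).1,
    fun s h T hT => (bd _).2.1, fun s h T hT => (bd _).2.2, ?_, ?_, ?_, ?_, ?_⟩
  · intro s h T _ _
    have hx := covRD_at hR h T
    have h1 := hK.r _ (gsF_giS s h).2 _ hx _ (Or.inl rfl)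
    rw [cκ_kR] at h1
    rw [V0_vpq, DYm_CM, ev_CK, hom s h]
    exact h1
  · intro s h h3
    have := h4p s h
    omega
  · intro s h _ i
    have key : ∀ T : T4, 0 < ev (K (kD s T))
        ((DYm (omS p q r s (zw z))).mulVec (Pool.Agent.Helper6.MONO.SV.UY V0.al V0.be e0 i)) := by
      intro T
      have hx := covRD_at hR h T
      have h1 := hK.r _ (gsF_giS s h).2 _ hx _ (UY_vpq i)
      rw [cκ_kR] at h1
      rw [DYm_CM, ev_CK, hom s h]
      exact h1
    exact ⟨key T4.two, key T4.three⟩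
  · intro s h
    exact (covLD_at hL h slit).2
  · intro s h
    exact (covLD_at hL h slit).1

/-! ### the data of a module -/

/-- the parts without runs -/
def modDS (a b c : Lb) (G : TProg) (sl : List ℕ) (le : List LT2) : Bool :=
  covRD G && (covTD sl && covLD a b c le)

theorem fcertD_of {z : ℂ} (hz : z ≠ 0) (hz1 : z + 1 ≠ 0) {K : ℕ → Hm ℝ} {G : TProg}
    {sl : List ℕ} {le : List LT2} (hP : PtR K (kR p q r) z G sl le)
    (h4p : ∀ s, DG s → 4 ≤ ML p q r s) {a b c : Lb} (ha : a.has p) (hb : b.has q)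
    (hc : c.has r) (hm : modDS a b c G sl le = true) :
    FCert V0 e0 p q r (1 / 2 ^ 10) (2 ^ 12) (zw z) (fun s T => K (kD s T)) := by
  unfold modDS at hm
  simp only [Bool.and_eq_true] at hm
  obtain ⟨m2, m3, m4⟩ := hm
  exact fcertD hz hz1 hP.res h4p m2 m3 hP.neg hP.bd m4 (slitT_of ha hb hc hP)

/-- walls, single runs of two letters -/
def modD1 (p q r : ℕ) (a b c : Lb) (W0 W1 W2 : WN) (RL : List (List (ℕ × ℕ))) (G : TProg)
    (il : List IT) (sl : List ℕ) (le : List LT2) : Bool :=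
  coverD p q r false W0 W1 W2 RL G il && modDS a b c G sl le

/-- walls and a chain for the runs of two letters -/
def modDC (p q r : ℕ) (a b c : Lb) (W0 W1 W2 : WN) (cB : Ch) (RL : List (List (ℕ × ℕ)))
    (G : TProg) (il : List IT) (sl : List ℕ) (le : List LT2) : Bool :=
  coverD p q r true W0 W1 W2 RL G il && (coverChD 2 T4.two RL G il cB && modDS a b c G sl le)

/-- two chains -/
def modDCC (p q r : ℕ) (a b c : Lb) (cA cB : Ch) (RL : List (List (ℕ × ℕ)))
    (G : TProg) (il : List IT) (sl : List ℕ) (le : List LT2) : Bool :=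
  ((List.range 6).all fun i => cov4D p q r RL G i) && (coverChD 3 T4.three RL G il cA &&
    (coverChD 2 T4.two RL G il cB && modDS a b c G sl le))

/-- walls, families of type B -/
def modDB (p q r : ℕ) (a b c : Lb) (W0 W1 W2 : WN) (RL : List (List (ℕ × ℕ)))
    (G : TProg) (il : List IT) (sl : List ℕ) (le : List LT2) : Bool :=
  coverD p q r true W0 W1 W2 RL G il && (modDS a b c G sl le && (covHD RL G (1, 2, 0) &&
    (covHD RL G (2, 1, 0) && (covHD RL G (2, 0, 1) && covHD RL G (1, 0, 2)))))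

/-! ### the certificates -/

section

variable {z : ℂ} {K : ℕ → Hm ℝ} {G : TProg} {sl : List ℕ} {le : List LT2} {a b c : Lb}
  {RL : List (List (ℕ × ℕ))} {W0 W1 W2 : WN} {il : List IT}

/-- walls, single runs of two letters -/
theorem near_cert1 (hp : 3 ≤ p) (hq : 3 ≤ q) (hr : 3 ≤ r) (h4p : ∀ s, DG s → 4 ≤ ML p q r s)
    (ha : a.has p) (hb : b.has q) (hc : c.has r) (hz : z ≠ 0) (hz1 : z + 1 ≠ 0)
    (hP : PtR K (kR p q r) z G sl le) (hR : RTab p q r RL)
    (hm : modD1 p q r a b c W0 W1 W2 RL G il sl le = true)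
    (hI : ∀ x ∈ il, ∀ y ∈ x.s, ∀ v, 0 < ev (K y.k) v → 0 < ev (K x.k) v)
    (hfam : ∀ s, DG s → giS s < 3 → (wS W0 W1 W2 (giS s)).f = true → ∀ m : ℕ, ∀ v,
      0 < ev (K (wS W0 W1 W2 (giS s)).e) v → 0 < ev (K (wS W0 W1 W2 (giS s)).x)
        ((gM (RMb p q r) s (List.replicate 2 3) (zw z) ^ (m + 1)).mulVec v)) :
    TCert V0 e0 p q r CBT (zw z) (RK fun s T => K (kD s T)) := by
  unfold modD1 at hm
  rw [Bool.and_eq_true] at hm
  exact NearC.tcert hp hq hr (by positivity) (fcertD_of hz hz1 hP h4p ha hb hc hm.2)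
    (nearD_of hp hq hr hz hz1 hP.res hR hm.1 hI hfam fun h => absurd h (by decide))

/-- walls and a chain for the runs of two letters -/
theorem near_certDC (hp : 3 ≤ p) (hq : 3 ≤ q) (hr : 3 ≤ r) (h4p : ∀ s, DG s → 4 ≤ ML p q r s)
    (ha : a.has p) (hb : b.has q) (hc : c.has r) (hz : z ≠ 0) (hz1 : z + 1 ≠ 0)
    (hP : PtR K (kR p q r) z G sl le) (hR : RTab p q r RL) {cB : Ch}
    (hm : modDC p q r a b c W0 W1 W2 cB RL G il sl le = true)
    (hI : ∀ x ∈ il, ∀ y ∈ x.s, ∀ v, 0 < ev (K y.k) v → 0 < ev (K x.k) v)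
    (hfam : ∀ s, DG s → giS s < 3 → (wS W0 W1 W2 (giS s)).f = true → ∀ m : ℕ, ∀ v,
      0 < ev (K (wS W0 W1 W2 (giS s)).e) v → 0 < ev (K (wS W0 W1 W2 (giS s)).x)
        ((gM (RMb p q r) s (List.replicate 2 3) (zw z) ^ (m + 1)).mulVec v)) :
    TCert V0 e0 p q r CBT (zw z) (RK fun s T => K (kD s T)) := by
  unfold modDC at hm
  simp only [Bool.and_eq_true] at hm
  obtain ⟨m1, m2, m3⟩ := hm
  have hX := hXD_of_ch (X := T4.two) le_rfl (by norm_num) hp hq hr hz hz1 hP.res hR m2 hI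
  exact NearC.tcert hp hq hr (by positivity) (fcertD_of hz hz1 hP h4p ha hb hc m3)
    (nearD_of hp hq hr hz hz1 hP.res hR m1 hI hfam fun _ s hs T _ hl hT2 k v hv =>
      hX s hs T (fun _ => ne_full_of_low hl) hT2 k v hv)

/-- walls, families of type B -/
theorem near_certDB (hp : 3 ≤ p) (hq : 3 ≤ q) (hr : 3 ≤ r) (h4p : ∀ s, DG s → 4 ≤ ML p q r s)
    (ha : a.has p) (hb : b.has q) (hc : c.has r) (hz : z ≠ 0) (hz1 : z + 1 ≠ 0)
    (hP : PtR K (kR p q r) z G sl le) (hR : RTab p q r RL)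
    (hm : modDB p q r a b c W0 W1 W2 RL G il sl le = true)
    (hI : ∀ x ∈ il, ∀ y ∈ x.s, ∀ v, 0 < ev (K y.k) v → 0 < ev (K x.k) v)
    (hfam : ∀ s, DG s → giS s < 3 → (wS W0 W1 W2 (giS s)).f = true → ∀ m : ℕ, ∀ v,
      0 < ev (K (wS W0 W1 W2 (giS s)).e) v → 0 < ev (K (wS W0 W1 W2 (giS s)).x)
        ((gM (RMb p q r) s (List.replicate 2 3) (zw z) ^ (m + 1)).mulVec v))
    (hB : (∀ s, (s = (1, 2, 0) ∨ s = (2, 1, 0) ∨ s = (2, 0, 1) ∨ s = (1, 0, 2)) → ∀ T : T4,
      T.ok (ML p q r s) → T.low (ML p q r s) ≤ 2 → T ≠ T4.two →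
      ∀ v, 0 < ev (K (kD s T)) v →
        0 < ev (K (kD (nxs s 2) T4.two)) ((RMb p q r s 2 (zw z)).mulVec v)) →
      HBD p q r z K) :
    TCert V0 e0 p q r CBT (zw z) (RK fun s T => K (kD s T)) := by
  unfold modDB at hm
  simp only [Bool.and_eq_true] at hm
  obtain ⟨m1, m2, m3, m4, m5, m6⟩ := hm
  have key : ∀ s, DG s → covHD RL G s = true → ∀ T : T4, T.low (ML p q r s) ≤ 2 → T ≠ T4.two →
      ∀ v, 0 < ev (K (kD s T)) v →
        0 < ev (K (kD (nxs s 2) T4.two)) ((RMb p q r s 2 (zw z)).mulVec v) := by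
    intro s hs hc2 T hl hT2 v hv
    have h3m : 3 ≤ mm p q r s.1 s.2.1 := LNI_mm hp hq hr _ _ hs.1
    unfold covHD at hc2
    rw [List.all_eq_true] at hc2
    have h5 := hc2 _ (fc_mem T)
    rw [fc_of_ne (ne_full_of_low hl), if_pos hT2] at h5
    exact run_ofD hp hq hr hR hz hz1 hP.res hs le_rfl (by omega) h5 v hv
  refine NearC.tcert hp hq hr (by positivity) (fcertD_of hz hz1 hP h4p ha hb hc m2)
    (nearD_of hp hq hr hz hz1 hP.res hR m1 hI hfam fun _ => hB ?_)
  rintro s (rfl | rfl | rfl | rfl) T hT hl hT2 v hv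
  · exact key _ ⟨by decide, by decide, by decide⟩ m3 T hl hT2 v hv
  · exact key _ ⟨by decide, by decide, by decide⟩ m4 T hl hT2 v hv
  · exact key _ ⟨by decide, by decide, by decide⟩ m5 T hl hT2 v hv
  · exact key _ ⟨by decide, by decide, by decide⟩ m6 T hl hT2 v hv

/-- two chains -/
theorem near_certDCC (hp : 3 ≤ p) (hq : 3 ≤ q) (hr : 3 ≤ r) (h4p : ∀ s, DG s → 4 ≤ ML p q r s)
    (ha : a.has p) (hb : b.has q) (hc : c.has r) (hz : z ≠ 0) (hz1 : z + 1 ≠ 0)
    (hP : PtR K (kR p q r) z G sl le) (hR : RTab p q r RL) {cA cB : Ch}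
    (hm : modDCC p q r a b c cA cB RL G il sl le = true)
    (hI : ∀ x ∈ il, ∀ y ∈ x.s, ∀ v, 0 < ev (K y.k) v → 0 < ev (K x.k) v) :
    TCert V0 e0 p q r CBT (zw z) (RK fun s T => K (kD s T)) := by
  unfold modDCC at hm
  simp only [Bool.and_eq_true] at hm
  obtain ⟨m4, mA, mB, m3⟩ := hm
  have hA := hXD_of_ch (X := T4.three) (by norm_num) le_rfl hp hq hr hz hz1 hP.res hR mA hI
  have hB := hXD_of_ch (X := T4.two) le_rfl (by norm_num) hp hq hr hz hz1 hP.res hR mB hI
  have h3m : ∀ s, DG s → 3 ≤ mm p q r s.1 s.2.1 := fun s h => LNI_mm hp hq hr _ _ h.1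
  refine (fcertD_of hz hz1 hP h4p ha hb hc m3).tcert (by positivity)
    (typ_cert hp hq hr (fun _ => rfl) (fun _ => rfl) (fun _ _ => rfl) (ga := true) (gb := true)
      ?_ ?_ ?_ ?_ ?_)
  · intro s hs T _ m h4 hm v hv
    obtain ⟨e, hi⟩ := gsF_giS s hs
    rw [List.all_eq_true] at m4
    have c4 := m4 (giS s) (List.mem_range.2 hi)
    unfold cov4D at c4
    rw [e, List.all_eq_true] at c4
    have h5 := c4 m (List.mem_range.2 (by omega))
    rw [if_pos h4, List.all_eq_true] at h5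
    have h6 := h5 _ (fc_mem T)
    rw [kD_fc] at h6
    exact run_ofD hp hq hr hR hz hz1 hP.res hs (by omega) hm h6 v hv
  · intro h0
    exact absurd h0 (by decide)
  · intro _ s hs T _ hT3 k v hv
    exact hA s hs T (fun h => absurd h (by decide)) hT3 k v hv
  · intro h0
    exact absurd h0 (by decide)
  · intro _ s hs T _ hl hT2 k v hv
    exact hB s hs T (fun _ => ne_full_of_low hl) hT2 k v hv

end

end Pool.Agent.Helper39.D0
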