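import Pool.Agent.Helper39.D0.D2
import Pool.Agent.Helper39.CT.NFH
import Pool.Agent.Helper39.XP.A

/-!
Near cells: lists of cells and modules with an arbitrary certificate of the points, with and without
tests of type B.
-/

set_option autoImplicit false
set_option exponentiation.threshold 4000
noncomputable section
namespace Pool.Agent.Helper39.D0

open Pool.Agent.Helper81.MIT
open Pool.Agent.Helper86.CX (Hm P9 VR ev Cx andB)
open Pool.Agent.Helper86.CT (LT2 Mo Mc Mq Sv Vx Cls Prog CellT Rw chkDT mk addM uM zM Alg mkCls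
  clsOK)
open Pool.Agent.Helper90.C75 (Vt)
open Pool.Agent.Helper90.KMT (PT TOK KTab CLT)
open Pool.Agent.Helper6.MONO (V3 RV2 TCert kk mm RMb zw Kp xA fB omS sD)
open Pool.Agent.Helper6.MONO.QTR (V0 e0 TCell tcell_of_z)
open Pool.Agent.Helper6.MID
open Pool.Agent.Helper6.PIE (z_ne)
open Pool.Agent.Helper6.PRG (giS)
open Pool.Agent.Helper21.SUP (GS DG gM)
open Pool.Agent.Helper21.SUP renaming nx → nxs
open Pool.Agent.Helper21.KCE (andB_tt)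
open Pool.Agent.Helper39.NCL (WN wS NA zw_ne)
open Pool.Agent.Helper39.SLT (T4 ML)
open Pool.Agent.Helper39.NFT
open Pool.Agent.Helper21.KRN (TProg PtR cκ NZ XM)
open Pool.Agent.Helper39.XP (expandX chkDTX_pt)
open Pool.Agent.Helper21.KTE (MZ KS CLD sideT)
open Pool.Agent.Helper48.NCT (IT FTT NDT chkNT chkPNT pcNT chkIT_pos ON)
open Pool.Agent.Helper57.KNB (FDT FamTOK BND AB sideB BXT BXOK NBT NAB CAllX chkNB chkPNB pcNB
  pcNB_tcell covDT sideLB sideLB_mem)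
open Complex ComplexConjugate

variable {p q r : ℕ}

/-- the families of type A at the walls -/
def FamA (p q r : ℕ) (W0 W1 W2 : WN) (z : ℂ) (K : ℕ → Hm ℝ) : Prop :=
  ∀ s, DG s → giS s < 3 → (wS W0 W1 W2 (giS s)).f = true → ∀ m : ℕ, ∀ v,
    0 < ev (K (wS W0 W1 W2 (giS s)).e) v → 0 < ev (K (wS W0 W1 W2 (giS s)).x)
      ((gM (RMb p q r) s (List.replicate 2 3) (zw z) ^ (m + 1)).mulVec v)

/-- the certificate of a point from the identities and the families of a cell -/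
def PtX (p q r : ℕ) (G : TProg) (sl : List ℕ) (le : List LT2) (il : List IT) (W0 W1 W2 : WN) : Prop :=
  ∀ {z : ℂ}, z ≠ 0 → z + 1 ≠ 0 → ∀ {K : ℕ → Hm ℝ}, PtR K (kR p q r) z G sl le →
    (∀ x ∈ il, ∀ y ∈ x.s, ∀ v, 0 < ev (K y.k) v → 0 < ev (K x.k) v) →
    FamA p q r W0 W1 W2 z K → ∃ R : GS → T4 → Set V3, TCert V0 e0 p q r CBT (zw z) R

/-- the implication proved by the tests of type B -/
def ImpB (idx : GS → T4 → ℕ) (p q r : ℕ) (z : ℂ) (K : ℕ → Hm ℝ) : Prop :=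
  (∀ s, (s = (1, 2, 0) ∨ s = (2, 1, 0) ∨ s = (2, 0, 1) ∨ s = (1, 0, 2)) → ∀ T : T4,
    T.ok (ML p q r s) → T.low (ML p q r s) ≤ 2 → T ≠ T4.two →
    ∀ v, 0 < ev (K (idx s T)) v →
      0 < ev (K (idx (nxs s 2) T4.two)) ((RMb p q r s 2 (zw z)).mulVec v)) →
  ∀ s, DG s → ∀ T : T4, T.ok (ML p q r s) → T.low (ML p q r s) ≤ 2 → T ≠ T4.two → ∀ k : ℕ,
    ∀ v, 0 < ev (K (idx s T)) v →
      0 < ev (K (idx (sD s (List.replicate (k + 1) 2)) T4.two))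
        ((gM (RMb p q r) s (List.replicate (k + 1) 2) (zw z)).mulVec v)

/-- the same, tests of type B -/
def PtY (idx : GS → T4 → ℕ) (p q r : ℕ) (G : TProg) (sl : List ℕ) (le : List LT2) (il : List IT)
    (W0 W1 W2 : WN) : Prop :=
  ∀ {z : ℂ}, z ≠ 0 → z + 1 ≠ 0 → ∀ {K : ℕ → Hm ℝ}, PtR K (kR p q r) z G sl le →
    (∀ x ∈ il, ∀ y ∈ x.s, ∀ v, 0 < ev (K y.k) v → 0 < ev (K x.k) v) →
    FamA p q r W0 W1 W2 z K → ImpB idx p q r z K →
    ∃ R : GS → T4 → Set V3, TCert V0 e0 p q r CBT (zw z) R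

section

variable {α β P v γ : Type} {D : ℕ} {lC : α → Vt D → Cx} {lf : α → Vt D → ℂ}
  {mf : (ℕ → ℝ) → β → (ℕ → ℝ) → ℝ} {lp : P → Vt D → P9} {lv : v → Vt D → VR}
  {lg : γ → Vt D → ℕ} {Sp : P → List Bool → Prop} {Sv' : v → List Bool → Prop}
  {Sg : γ → List Bool → Prop} {M : Mc α β P v γ}

/-- A LIST OF NEAR CELLS, any certificate of the points -/
theorem list_NX (hM : Pool.Agent.Helper17.KPT.MK D lC lf mf lp lv lg Sp Sv' Sg M)
    (hn : ∀ (f : ℕ → ℝ) (T : β) (t : ℕ → ℝ), PT D t → (∀ x, 0 ≤ f x) → 0 ≤ mf f T t)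
    {ONE : β} (h1 : ON mf ONE) {F : FTT α β (FDT β)} (hF : FamTOK D lf mf F) (hp : 3 ≤ p)
    (hq : 3 ≤ q) (hr : 3 ≤ r) {x0 : ℝ} (x1 : -2 < x0) (x2 : x0 ≤ 2)
    (t1 : xA p q r ≤ x0) (t2 : xA q r p ≤ x0) (t3 : xA r p q ≤ x0)
    {W0 W1 W2 : WN} {G : TProg} {il : List IT} {sl : List ℕ} {le : List LT2}
    (hPt : PtX p q r G sl le il W0 W1 W2)
    {S : Sv P} {W : Vx β} {Y : ℕ → ℕ → α} {k0 k1 k2 : Mo α} {C : Cls α} {Ge : Prog v}
    {X : Mo α} {f0 f1 f2 : Bool} (g0 : f0 = W0.f) (g1 : f1 = W1.f) (g2 : f2 = W2.f)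
    {sc : CellT α β → Bool} {l : List (NDT α β (FDT β))} (hl : l ≠ []) {As : List NA}
    (hs : sideLT (sideNT W0 W1 W2 sc) l As = true)
    (hD : ∀ d : CellT α β, sc d = true → chkDT M S W Y C Ge X sl le d = true →
      CAll D lf mf M.A p q r x0 G sl le k0 k1 k2 C (addM M.A X (mk M.A (Y d.ya d.yb) (nat_lit 0)))
        d) {y e : ℕ}
    (H : chkPNT M S W Y F f0 f1 f2 k0 k1 k2 C Ge X sl le ONE il e l y = true) :
    TCell p q r x0 ((y : ℝ) / 2 ^ 48) ((e : ℝ) / 2 ^ 48) := by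
  subst g0
  subst g1
  subst g2
  obtain ⟨d, l, rfl⟩ := List.exists_cons_of_ne_nil hl
  refine pcNT_tcell l d As y H hs fun u hu A hA hc' => ?_
  unfold sideNT at hA
  simp only [Bool.and_eq_true] at hA
  obtain ⟨h0, h2, h3, h4⟩ := hA
  obtain ⟨H1, H'⟩ := andB_tt hc'
  obtain ⟨H2, H3⟩ := andB_tt H'
  refine tcell_of_z x1 x2 CBT ?_
  intro z y hy0 hya hyb hz _ _ hui hzx
  obtain ⟨t, h⟩ := hD u.c h0 H1 hy0 hya hyb hz hui hzx
  have hI := chkIT_pos hM hn h1 H2 h.pt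
  have hz1 := z_ne x1 hzx
  have hN : NZ (kap3 p q r) z := by
    have h2 := h.P.nz
    rwa [cκ_kR] at h2
  have hfam := fam_ptT (famOKT_of hF) hp hq hr x1 t1 t2 t3 h.pt hy0 hz hzx hN h.a0 h.a1 h.a2 h.C
    h.u h.z (sideWT_iff h2) (sideWT_iff h3) (sideWT_iff h4) H3
  exact hPt hz hz1 h.P hI hfam

/-- side condition of the B data: powers, numbers of the forms -/
def sideNX (idx : GS → T4 → ℕ) (p q r : ℕ) (d : BND α β) (A : AB) : Bool :=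
  sideB d A && (covDT idx p q r (0, 1, 2) d.P && covDT idx p q r (0, 2, 1) d.M)

/-- all side conditions of a near cell -/
def sideNBX (idx : GS → T4 → ℕ) (p q r : ℕ) (W0 W1 W2 : WN) (sc : CellT α β → Bool)
    (d : NBT α β (FDT β)) (A : NAB) : Bool :=
  sideNT W0 W1 W2 sc d.n A.w && sideNX idx p q r d.B A.b

/-- A LIST OF NEAR CELLS WITH B TESTS, any certificate of the points -/
theorem list_NY (hM : Pool.Agent.Helper17.KPT.MK D lC lf mf lp lv lg Sp Sv' Sg M)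
    (hn : ∀ (f : ℕ → ℝ) (T : β) (t : ℕ → ℝ), PT D t → (∀ x, 0 ≤ f x) → 0 ≤ mf f T t)
    {ONE : β} (h1 : ON mf ONE) {F : FTT α β (FDT β)} (hF : FamTOK D lf mf F) {FB : BXT α β}
    (hFB : BXOK D lf mf FB) (hp : 3 ≤ p) (hq : 3 ≤ q) (hr : 3 ≤ r)
    {x0 : ℝ} (x1 : -2 < x0) (x2 : x0 ≤ 2)
    (t1 : xA p q r ≤ x0) (t2 : xA q r p ≤ x0) (t3 : xA r p q ≤ x0) (tB : fB p q r x0 = 0)
    {W0 W1 W2 : WN} {G : TProg} {il : List IT} {sl : List ℕ}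
    {le : List LT2} {idx : GS → T4 → ℕ} (hPt : PtY idx p q r G sl le il W0 W1 W2)
    {S : Sv P} {W : Vx β} {Y : ℕ → ℕ → α} {k0 k1 k2 : Mo α} {C : Cls α} {Ge : Prog v}
    {X : Mo α} (hXr : ∀ v, (lf X.v v).im = 0) {f0 f1 f2 : Bool} (g0 : f0 = W0.f) (g1 : f1 = W1.f)
    (g2 : f2 = W2.f) {sc : CellT α β → Bool} {l : List (NBT α β (FDT β))} (hl : l ≠ [])
    {As : List NAB} (hs : sideLB (sideNBX idx p q r W0 W1 W2 sc) l As = true)
    (hD : ∀ d : CellT α β, sc d = true → chkDT M S W Y C Ge X sl le d = true →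
      CAllX D lf mf M.A p q r x0 G sl le k0 k1 k2 C X
        (addM M.A X (mk M.A (Y d.ya d.yb) (nat_lit 0))) d) {y e : ℕ}
    (H : chkPNB M S W Y F FB f0 f1 f2 k0 k1 k2 C Ge X sl le ONE il e l y = true) :
    TCell p q r x0 ((y : ℝ) / 2 ^ 48) ((e : ℝ) / 2 ^ 48) := by
  subst g0
  subst g1
  subst g2
  obtain ⟨d, l, rfl⟩ := List.exists_cons_of_ne_nil hl
  refine pcNB_tcell l d y H (sideLB_mem hs) fun u _ A hA hc' => ?_
  unfold sideNBX sideNT sideNX at hA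
  simp only [Bool.and_eq_true] at hA
  obtain ⟨⟨h0, h2, h3, h4⟩, sB, cP, cM⟩ := hA
  obtain ⟨H, HB⟩ := andB_tt hc'
  obtain ⟨H1, H⟩ := andB_tt H
  obtain ⟨H2, H3⟩ := andB_tt H
  refine tcell_of_z x1 x2 CBT ?_
  intro z y hy0 hya hyb hz _ _ hui hzx
  obtain ⟨t, h, hX⟩ := hD u.n.c h0 H1 hy0 hya hyb hz hui hzx
  have hI := chkIT_pos hM hn h1 H2 h.pt
  have hz1 := z_ne x1 hzx
  have hN : NZ (kap3 p q r) z := by
    have h2 := h.P.nz
    rwa [cκ_kR] at h2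
  have hfam := fam_ptT (famOKT_of hF) hp hq hr x1 t1 t2 t3 h.pt hy0 hz hzx hN h.a0 h.a1 h.a2 h.C
    h.u h.z (sideWT_iff h2) (sideWT_iff h3) (sideWT_iff h4) H3
  obtain ⟨hw1, hw2, hzw⟩ := zw_ne hz hz1
  have hom : ∀ s, DG s → omS p q r s (zw z) ≠ 0 := by
    intro s h
    rw [oZ_omS hz hz1 s h]
    exact nz_ne hN _
  exact hPt hz hz1 h.P hI hfam
    (hFB h.pt hp hq hr hom hzw hz hui x1 x2 hy0 hyb hzx tB h.a0 h.a1 h.a2 rfl rfl rfl h.C hX hXr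
      h.u h.z HB sB cP cM)

end

section

variable {α β P v γ : Type} {D : ℕ} {lC : α → Vt (D + 1) → Cx} {lf : α → Vt (D + 1) → ℂ}
  {mf : (ℕ → ℝ) → β → (ℕ → ℝ) → ℝ} {lp : P → Vt (D + 1) → P9} {lv : v → Vt (D + 1) → VR}
  {lg : γ → Vt (D + 1) → ℕ} {Sa : α → List Bool → Prop} {Sp : P → List Bool → Prop}
  {Sv' : v → List Bool → Prop} {Sg : γ → List Bool → Prop} {M : Mc α β P v γ}
  {S : Sv P} {W : Vx β} {Y : ℕ → ℕ → α} {qd : ℕ → Cx → Cx → Cx → α} {rt : α → Bool}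

/-- A MODULE OF NEAR CELLS, any line given by a model, any certificate of the points -/
theorem nearT_X {X : XM α v}
    (hZ : MZ D lC lf mf lp lv lg Sa Sp Sv' Sg M X.Q X.c X.r S W Y qd rt) {ONE : β}
    (h1 : ON mf ONE) {F : FTT α β (FDT β)} (hF : FamTOK (D + 1) lf mf F)
    (hp : 3 ≤ p) (hq : 3 ≤ q) (hr : 3 ≤ r)
    {s0 s1 s2 : KS} {Xo : Mo α} {x0 : ℝ} (hC : CLD D lf M qd rt X Xo s0 s1 s2 (kR p q r) x0)
    (x1 : -2 < x0) (x2 : x0 ≤ 2) (t1 : xA p q r ≤ x0) (t2 : xA q r p ≤ x0) (t3 : xA r p q ≤ x0)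
    {W0 W1 W2 : WN} {G : TProg} {il : List IT} {sl : List ℕ} {le : List LT2}
    (hPt : PtX p q r G sl le il W0 W1 W2)
    {f0 f1 f2 : Bool} (g0 : f0 = W0.f) (g1 : f1 = W1.f) (g2 : f2 = W2.f)
    {l : List (NDT α β (FDT β))} (hl : l ≠ []) {As : List NA}
    (hs : sideLT (sideNT W0 W1 W2 (sideT W le)) l As = true) {y e : ℕ}
    (H : chkPNT M S W Y F f0 f1 f2 X.k0 X.k1 X.k2 (mkCls M.A X.k0 X.k1 X.k2) (expandX X G)
      Xo sl le ONE il e l y = true) :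
    TCell p q r x0 ((y : ℝ) / 2 ^ 48) ((e : ℝ) / 2 ^ 48) := by
  refine list_NX hZ.m.k hZ.w.pos h1 hF hp hq hr x1 x2 t1 t2 t3 hPt g0 g1 g2 hl hs ?_ H
  intro d hd hk z h hh0 hha hhb hz hui hzx
  obtain ⟨t, b1, b2, b3, b4, b5, b6, b7, b8⟩ := chkDTX_pt hZ hC hd hk (h := h)
    (by rw [div_le_iff₀ (by positivity)] at hha; linarith)
    (by rw [le_div_iff₀ (by positivity)] at hhb; linarith) hz hzx hui
  rw [cκ_kR] at b6
  exact ⟨t, b1, b2, b3, b4, b5, b6, b7, b8⟩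

/-- the same, tests of type B -/
theorem nearT_Y {X : XM α v}
    (hZ : MZ D lC lf mf lp lv lg Sa Sp Sv' Sg M X.Q X.c X.r S W Y qd rt) {ONE : β}
    (h1 : ON mf ONE) {F : FTT α β (FDT β)} (hF : FamTOK (D + 1) lf mf F) {FB : BXT α β}
    (hFB : BXOK (D + 1) lf mf FB) (hp : 3 ≤ p) (hq : 3 ≤ q) (hr : 3 ≤ r)
    {s0 s1 s2 : KS} {Xo : Mo α} {x0 : ℝ} (hC : CLD D lf M qd rt X Xo s0 s1 s2 (kR p q r) x0)
    (x1 : -2 < x0) (x2 : x0 ≤ 2) (t1 : xA p q r ≤ x0) (t2 : xA q r p ≤ x0) (t3 : xA r p q ≤ x0)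
    (tB : fB p q r x0 = 0) {W0 W1 W2 : WN} {G : TProg} {il : List IT}
    {sl : List ℕ} {le : List LT2} {idx : GS → T4 → ℕ} (hPt : PtY idx p q r G sl le il W0 W1 W2)
    {f0 f1 f2 : Bool} (g0 : f0 = W0.f) (g1 : f1 = W1.f) (g2 : f2 = W2.f)
    {l : List (NBT α β (FDT β))} (hl : l ≠ []) {As : List NAB}
    (hs : sideLB (sideNBX idx p q r W0 W1 W2 (sideT W le)) l As = true) {y e : ℕ}
    (H : chkPNB M S W Y F FB f0 f1 f2 X.k0 X.k1 X.k2 (mkCls M.A X.k0 X.k1 X.k2) (expandX X G)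
      Xo sl le ONE il e l y = true) :
    TCell p q r x0 ((y : ℝ) / 2 ^ 48) ((e : ℝ) / 2 ^ 48) := by
  refine list_NY hZ.m.k hZ.w.pos h1 hF hFB hp hq hr x1 x2 t1 t2
    t3 tB hPt (hZ.t _ hC.rt) g0 g1 g2 hl hs ?_ H
  intro d hd hk z h hh0 hha hhb hz hui hzx
  obtain ⟨t, b1, b2, b3, b4, b5, b6, b7, b8⟩ := chkDTX_pt hZ hC hd hk (h := h)
    (by rw [div_le_iff₀ (by positivity)] at hha; linarith)
    (by rw [le_div_iff₀ (by positivity)] at hhb; linarith) hz hzx hui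
  have b9 := hC.x0 t b1 b3 b4 b5
  rw [cκ_kR] at b6
  exact ⟨t, ⟨b1, b2, b3, b4, b5, b6, b7, b8⟩, b9⟩

end

end Pool.Agent.Helper39.D0
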