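import Pool.Agent.Helper12.CX.KAP

/-!
Tables of thin intervals of `2 ^ 48 R_j`, `j = 3 .. M - 1`, for one order `M`; checked by interval
arithmetic with the addition formula.
-/

set_option autoImplicit false
set_option exponentiation.threshold 4000
noncomputable section
namespace Pool.Agent.Helper39.D0

open Pool.Agent.Helper6.MONO (Kp Rb SbP RJ_one RJ_two RJ_succ RJ_pos kap_le2 Kp_ge1)

/-- the enclosure of the next value -/
def nxR (p P q Q : ℕ) (x : ℕ × ℕ) : ℕ × ℕ :=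
  ((p * x.1 - Q * 2 ^ 48) / (x.1 + p), (P * x.2 - q * 2 ^ 48) / (x.2 + P) + 1)

/-- the intervals of the list contain the computed enclosures -/
def goR (p P q Q : ℕ) : ℕ × ℕ → List (ℕ × ℕ) → Bool
  | _, [] => true
  | x, y :: l => decide (y.1 ≤ (nxR p P q Q x).1) && (decide ((nxR p P q Q x).2 ≤ y.2) &&
      (decide (y.2 ≤ 2 ^ 50) && goR p P q Q (nxR p P q Q x) l))

/-- THE TABLE of the order `M`, weight in `[lo, hi]` -/
def chR (lo hi M : ℕ) (l : List (ℕ × ℕ)) : Bool :=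
  decide (2 ^ 48 ≤ lo) && (decide (lo ≤ hi) && (decide (l.length = M - 3) &&
    goR (2 ^ 48 + 2 ^ 97 / hi) (2 ^ 48 + 2 ^ 97 / lo + 1) (2 ^ 146 / (hi * hi) - 2 ^ 48)
      (2 ^ 146 / (lo * lo) + 1 - 2 ^ 48) (2 ^ 48, 2 ^ 48) l))

theorem div_up (n d : ℕ) (hd : 0 < d) : (n : ℝ) / d ≤ ((n / d : ℕ) : ℝ) + 1 := by
  have h : n < d * (n / d + 1) := Nat.lt_mul_div_succ n hd
  have h' : (n : ℝ) ≤ d * (((n / d : ℕ) : ℝ) + 1) := by exact_mod_cast h.le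
  rw [div_le_iff₀ (by exact_mod_cast hd)]
  linarith

theorem sub_lo (a b : ℕ) : (a : ℝ) - b ≤ ((a - b : ℕ) : ℝ) := by
  rcases Nat.le_total b a with h | h
  · rw [Nat.cast_sub h]
  · have h' : (a : ℝ) ≤ b := by exact_mod_cast h
    have h0 : (0 : ℝ) ≤ ((a - b : ℕ) : ℝ) := Nat.cast_nonneg _
    linarith

theorem nxR_ok {p P q Q : ℕ} {x : ℕ × ℕ} {A X T Y : ℝ} (hp0 : 0 < p) (hp : (p : ℝ) ≤ A)
    (hP : A ≤ P) (hq : (q : ℝ) ≤ T) (hQ : T ≤ Q) (hT : 0 ≤ T) (h1 : (x.1 : ℝ) ≤ X)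
    (h2 : X ≤ (x.2 : ℝ)) (hY : Y = (A * X - 2 ^ 48 * T) / (A + X)) (hY0 : 0 ≤ Y) :
    ((nxR p P q Q x).1 : ℝ) ≤ Y ∧ Y ≤ ((nxR p P q Q x).2 : ℝ) := by
  have p0 : (0 : ℝ) < p := by exact_mod_cast hp0
  have x0 : (0 : ℝ) ≤ x.1 := Nat.cast_nonneg _
  have A0 : 0 < A := p0.trans_le hp
  have X0 : 0 ≤ X := x0.trans h1
  have P0 : (0 : ℝ) < P := A0.trans_le hP
  have x2 : (0 : ℝ) ≤ x.2 := X0.trans h2
  constructor
  · unfold nxR
    rcases Nat.le_total (Q * 2 ^ 48) (p * x.1) with h | h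
    · refine (Nat.cast_div_le).trans ?_
      rw [Nat.cast_sub h, hY]
      push_cast
      rw [div_le_div_iff₀ (by linarith) (by linarith)]
      have e1 : 0 ≤ (x.1 : ℝ) * X * (A - p) := mul_nonneg (mul_nonneg x0 X0) (by linarith)
      have e2 : 0 ≤ A * p * (X - x.1) := mul_nonneg (mul_nonneg A0.le p0.le) (by linarith)
      have e3 : T * ((x.1 : ℝ) + p) ≤ Q * (A + X) :=
        mul_le_mul hQ (by linarith) (by linarith) (hT.trans hQ)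
      nlinarith
    · show (((p * x.1 - Q * 2 ^ 48) / (x.1 + p) : ℕ) : ℝ) ≤ Y
      rw [Nat.sub_eq_zero_of_le h, Nat.zero_div, Nat.cast_zero]
      exact hY0
  · unfold nxR
    show Y ≤ (((P * x.2 - q * 2 ^ 48) / (x.2 + P) + 1 : ℕ) : ℝ)
    have hd : 0 < x.2 + P := by
      have : (0 : ℝ) < ((x.2 + P : ℕ) : ℝ) := by push_cast; linarith
      exact_mod_cast this
    rw [Nat.cast_add, Nat.cast_one]
    refine le_trans ?_ (div_up _ _ hd)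
    have h3 := sub_lo (P * x.2) (q * 2 ^ 48)
    have e48 : ((2 ^ 48 : ℕ) : ℝ) = 2 ^ 48 := by norm_num
    rw [Nat.cast_mul, Nat.cast_mul, e48] at h3
    have h4 : ((P : ℝ) * x.2 - q * 2 ^ 48) / ((x.2 : ℝ) + P) ≤
        ((P * x.2 - q * 2 ^ 48 : ℕ) : ℝ) / ((x.2 + P : ℕ) : ℝ) := by
      rw [Nat.cast_add]
      exact div_le_div_of_nonneg_right h3 (by linarith)
    refine le_trans ?_ h4
    rw [hY, div_le_div_iff₀ (by linarith) (by linarith)]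
    have e1 : 0 ≤ P * A * ((x.2 : ℝ) - X) := mul_nonneg (mul_nonneg P0.le A0.le) (by linarith)
    have e2 : 0 ≤ (x.2 : ℝ) * X * (P - A) := mul_nonneg (mul_nonneg x2 X0) (by linarith)
    have e3 : (q : ℝ) * (A + X) ≤ T * (x.2 + P) :=
      mul_le_mul hq (by linarith) (by linarith) hT
    nlinarith

/-- the recursion in units `2 ^ (-48)` -/
theorem Rb_next {M j : ℕ} (hM : 3 ≤ M) (hj : 1 ≤ j) (hjM : j + 1 ≤ M) :
    2 ^ 48 * Rb M (j + 1) = ((2 ^ 48 * Rb M 1) * (2 ^ 48 * Rb M j) - 2 ^ 48 * (2 ^ 48 * SbP (Kp M))) /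
      (2 ^ 48 * Rb M 1 + 2 ^ 48 * Rb M j) := by
  rw [RJ_succ M j hM hj hjM]
  have h1 := (RJ_pos M 1 hM le_rfl (by omega)).2 (by omega)
  have h2 := (RJ_pos M j hM hj (by omega)).1
  have h3 : Rb M 1 + Rb M j ≠ 0 := by linarith
  have h4 : 2 ^ 48 * Rb M 1 + 2 ^ 48 * Rb M j ≠ 0 := by
    have : (2 : ℝ) ^ 48 * Rb M 1 + 2 ^ 48 * Rb M j = 2 ^ 48 * (Rb M 1 + Rb M j) := by ring
    rw [this]
    exact mul_ne_zero (by positivity) h3
  field_simp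

theorem goR_ok {M : ℕ} (hM : 3 ≤ M) {p P q Q : ℕ} (hp0 : 0 < p)
    (hp : (p : ℝ) ≤ 2 ^ 48 * Rb M 1) (hP : 2 ^ 48 * Rb M 1 ≤ (P : ℝ))
    (hq : (q : ℝ) ≤ 2 ^ 48 * SbP (Kp M)) (hQ : 2 ^ 48 * SbP (Kp M) ≤ (Q : ℝ))
    (hT : 0 ≤ SbP (Kp M)) : ∀ (l : List (ℕ × ℕ)) (x : ℕ × ℕ) (j : ℕ), 1 ≤ j →
    (x.1 : ℝ) ≤ 2 ^ 48 * Rb M j → 2 ^ 48 * Rb M j ≤ (x.2 : ℝ) → goR p P q Q x l = true →
    ∀ i, i < l.length → j + i + 1 ≤ M →
      ((l.getD i (0, 0)).1 : ℝ) ≤ 2 ^ 48 * Rb M (j + i + 1) ∧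
      2 ^ 48 * Rb M (j + i + 1) ≤ ((l.getD i (0, 0)).2 : ℝ) ∧ (l.getD i (0, 0)).2 ≤ 2 ^ 50 := by
  intro l
  induction l with
  | nil =>
    intro x j _ _ _ _ i hi
    exact absurd hi (by simp)
  | cons y l ih =>
    intro x j hj h1 h2 h i hi hjM
    unfold goR at h
    simp only [Bool.and_eq_true, decide_eq_true_eq] at h
    obtain ⟨c1, c2, c3, h⟩ := h
    have hY0 : 0 ≤ 2 ^ 48 * Rb M (j + 1) :=
      mul_nonneg (by positivity) (RJ_pos M (j + 1) hM (by omega) (by omega)).1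
    obtain ⟨n1, n2⟩ := nxR_ok hp0 hp hP hq hQ (mul_nonneg (by positivity) hT) h1 h2
      (Rb_next hM hj (by omega)) hY0
    have c1' : (y.1 : ℝ) ≤ ((nxR p P q Q x).1 : ℝ) := by exact_mod_cast c1
    have c2' : ((nxR p P q Q x).2 : ℝ) ≤ (y.2 : ℝ) := by exact_mod_cast c2
    match i, hi, hjM with
    | 0, _, _ =>
      rw [List.getD_cons_zero]
      exact ⟨c1'.trans n1, n2.trans c2', c3⟩
    | i + 1, hi, hjM =>
      rw [List.getD_cons_succ]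
      have h5 := ih (nxR p P q Q x) (j + 1) (by omega) n1 n2 h i
        (by rw [List.length_cons] at hi; omega) (by omega)
      have e : j + 1 + i + 1 = j + (i + 1) + 1 := by omega
      rwa [e] at h5

theorem chR_sound {lo hi M : ℕ} {l : List (ℕ × ℕ)} (hM : 10 ≤ M) (h1 : (lo : ℝ) ≤ 2 ^ 48 * Kp M)
    (h2 : 2 ^ 48 * Kp M ≤ (hi : ℝ)) (h : chR lo hi M l = true) : ∀ j, 3 ≤ j → j + 1 ≤ M →
    ((l.getD (j - 3) (0, 0)).1 : ℝ) ≤ 2 ^ 48 * Rb M j ∧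
      2 ^ 48 * Rb M j ≤ ((l.getD (j - 3) (0, 0)).2 : ℝ) ∧
      (l.getD (j - 3) (0, 0)).2 ≤ 2 ^ 50 := by
  intro j h3 hj
  unfold chR at h
  simp only [Bool.and_eq_true, decide_eq_true_eq] at h
  obtain ⟨c1, -, c2, h⟩ := h
  have l0 : (2 : ℝ) ^ 48 ≤ lo := by exact_mod_cast c1
  have l0' : (0 : ℝ) < lo := lt_of_lt_of_le (by positivity) l0
  set κ := Kp M with hκ
  have k0 : 0 < κ := by
    have := Kp_ge1 (M := M) (by omega)
    linarith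
  have k2 : κ ≤ 2 := kap_le2 M
  have K0 : 0 < 2 ^ 48 * κ := by positivity
  have hi0 : (0 : ℝ) < hi := K0.trans_le h2
  have hi0' : 0 < hi := by exact_mod_cast hi0
  have lo0' : 0 < lo := by exact_mod_cast l0'
  have eA : 2 ^ 48 * Rb M 1 = 2 ^ 48 + 2 ^ 97 / (2 ^ 48 * κ) := by
    have h5 : (2 : ℝ) ^ 97 / (2 ^ 48 * κ) = 2 ^ 48 * (2 / κ) := by
      rw [mul_div_assoc', div_eq_div_iff (by positivity) (by positivity)]
      ring
    rw [RJ_one M (by omega), h5]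
    ring
  have e48 : ((2 ^ 48 : ℕ) : ℝ) = 2 ^ 48 := by norm_num
  have e97 : ((2 ^ 97 : ℕ) : ℝ) = 2 ^ 97 := by norm_num
  have e146 : ((2 ^ 146 : ℕ) : ℝ) = 2 ^ 146 := by norm_num
  have eT : 2 ^ 48 * SbP κ = 2 ^ 146 / ((2 ^ 48 * κ) * (2 ^ 48 * κ)) - 2 ^ 48 := by
    have h5 : (2 : ℝ) ^ 146 / ((2 ^ 48 * κ) * (2 ^ 48 * κ)) = 2 ^ 50 / (κ * κ) := by
      rw [div_eq_div_iff (by positivity) (by positivity)]
      ring
    rw [h5]
    unfold SbP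
    field_simp
    ring
  have hT : 0 ≤ SbP κ := by
    unfold SbP
    exact mul_nonneg (mul_nonneg (by linarith) (by linarith)) (by positivity)
  have b1 : (((2 ^ 48 + 2 ^ 97 / hi : ℕ)) : ℝ) ≤ 2 ^ 48 * Rb M 1 := by
    rw [eA, Nat.cast_add]
    have h5 : ((2 ^ 97 / hi : ℕ) : ℝ) ≤ ((2 ^ 97 : ℕ) : ℝ) / hi := Nat.cast_div_le
    have h6 : ((2 ^ 97 : ℕ) : ℝ) / hi ≤ 2 ^ 97 / (2 ^ 48 * κ) := by
      rw [e97]
      exact div_le_div_of_nonneg_left (by positivity) K0 h2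
    have h7 := h5.trans h6
    rw [e48]
    linarith
  have b2 : 2 ^ 48 * Rb M 1 ≤ (((2 ^ 48 + 2 ^ 97 / lo + 1 : ℕ)) : ℝ) := by
    rw [eA, Nat.cast_add, Nat.cast_add, Nat.cast_one]
    have h5 := div_up (2 ^ 97) lo lo0'
    have h6 : 2 ^ 97 / (2 ^ 48 * κ) ≤ ((2 ^ 97 : ℕ) : ℝ) / lo := by
      rw [e97]
      exact div_le_div_of_nonneg_left (by positivity) l0' h1
    have h7 := h6.trans h5
    rw [e48]
    linarith
  have b3 : (((2 ^ 146 / (hi * hi) - 2 ^ 48 : ℕ)) : ℝ) ≤ 2 ^ 48 * SbP κ := by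
    rcases Nat.le_total (2 ^ 48) (2 ^ 146 / (hi * hi)) with h5 | h5
    · rw [Nat.cast_sub h5, eT]
      have h6 : ((2 ^ 146 / (hi * hi) : ℕ) : ℝ) ≤ ((2 ^ 146 : ℕ) : ℝ) / ((hi * hi : ℕ) : ℝ) :=
        Nat.cast_div_le
      have h7 : ((2 ^ 146 : ℕ) : ℝ) / ((hi * hi : ℕ) : ℝ) ≤
          2 ^ 146 / ((2 ^ 48 * κ) * (2 ^ 48 * κ)) := by
        rw [e146, Nat.cast_mul]
        exact div_le_div_of_nonneg_left (by positivity) (mul_pos K0 K0)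
          (mul_le_mul h2 h2 K0.le hi0.le)
      have h8 := h6.trans h7
      rw [e48]
      linarith
    · rw [Nat.sub_eq_zero_of_le h5, Nat.cast_zero]
      exact mul_nonneg (by positivity) hT
  have b4 : 2 ^ 48 * SbP κ ≤ (((2 ^ 146 / (lo * lo) + 1 - 2 ^ 48 : ℕ)) : ℝ) := by
    refine le_trans ?_ (sub_lo _ _)
    rw [eT, Nat.cast_add, Nat.cast_one]
    have h5 := div_up (2 ^ 146) (lo * lo) (Nat.mul_pos lo0' lo0')
    have h6 : 2 ^ 146 / ((2 ^ 48 * κ) * (2 ^ 48 * κ)) ≤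
        ((2 ^ 146 : ℕ) : ℝ) / ((lo * lo : ℕ) : ℝ) := by
      rw [e146, Nat.cast_mul]
      exact div_le_div_of_nonneg_left (by positivity) (mul_pos l0' l0')
        (mul_le_mul h1 h1 l0'.le K0.le)
    have h7 := h6.trans h5
    rw [e48]
    linarith
  have h0 : 0 < 2 ^ 48 + 2 ^ 97 / hi := by positivity
  have e2 : 2 ^ 48 * Rb M 2 = (((2 ^ 48 : ℕ)) : ℝ) := by
    rw [RJ_two M (by omega), e48, mul_one]
  have key := goR_ok (M := M) (by omega) h0 b1 b2 b3 b4 hT l (2 ^ 48, 2 ^ 48) 2 (by norm_num)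
    e2.ge e2.le h (j - 3) (by omega) (by omega)
  have e : 2 + (j - 3) + 1 = j := by omega
  rwa [e] at key

end Pool.Agent.Helper39.D0
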