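import Pool.Agent.Helper39.D0.D3
import Pool.Agent.Helper39.D0.RL
import Pool.Agent.Helper81.MIT.K15
import Pool.Agent.Helper81.MIT.K30

/-!
Near cells of classes of three known orders `≥ 10` with thin labels, constant line. The theorems of
the modules.
-/

set_option autoImplicit false
set_option exponentiation.threshold 4000
noncomputable section
namespace Pool.Agent.Helper39.D0

open Pool.Agent.Helper81.MIT
open Pool.Agent.Helper86.CX (Hm P9 VR ev Cx andB)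
open Pool.Agent.Helper86.CT (LT2 Mo Mc Mq Sv Vx Cls Prog CellT Rw chkDT mk addM uM zM Alg mkCls
  clsOK)
open Pool.Agent.Helper90.C75 (Vt)
open Pool.Agent.Helper86.C75 (Z)
open Pool.Agent.Helper90.KMO (zv)
open Pool.Agent.Helper90.KMT (PT TOK KTab CLT)
open Pool.Agent.Helper6.MONO (mm kk Kp xA fB Thr Rb)
open Pool.Agent.Helper6.MONO.QTR (TCell)
open Pool.Agent.Helper21.SUP (GS DG)
open Pool.Agent.Helper39.SLT (T4 ML)
open Pool.Agent.Helper39.NCL (WN NA)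
open Pool.Agent.Helper39.NFT
open Pool.Agent.Helper21.KRN (TProg PtR XM xOK cκ)
open Pool.Agent.Helper39.XP (expandX)
open Pool.Agent.Helper21.KTE (MZ KS wfK CLD chkDT_pt sideT TOK_xC)
open Pool.Agent.Helper48.NCT (IT FTT NDT chkPNT ON)
open Pool.Agent.Helper57.KNB (FDT FamTOK NBT NAB BXT BXOK chkPNB sideLB)
open Complex ComplexConjugate

variable {p q r : ℕ}

/-! ### the tables of `R_m` -/

/-- the table of a thin label of the order `M` -/
def rl1 (B : Lb) (M : ℕ) (l : List (ℕ × ℕ)) : Bool :=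
  match B with
  | Lb.ex _ => false
  | Lb.tl lo hi => chR lo hi M l

/-- the three tables -/
def rlC (p q r : ℕ) (a b c : Lb) (RL : List (List (ℕ × ℕ))) : Bool :=
  rl1 a p (RL.getD 0 []) && (rl1 b q (RL.getD 1 []) && rl1 c r (RL.getD 2 []))

theorem rl1_ok {B : Lb} {M : ℕ} {l : List (ℕ × ℕ)} (h : rl1 B M l = true) (hB : B.has M) :
    10 ≤ M ∧ ∀ m, 4 ≤ m → m ≤ M → ((l.getD (m - 4) (0, 0)).1 : ℝ) ≤ 2 ^ 48 * Rb M (m - 1) ∧
      2 ^ 48 * Rb M (m - 1) ≤ ((l.getD (m - 4) (0, 0)).2 : ℝ) ∧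
      (l.getD (m - 4) (0, 0)).2 ≤ 2 ^ 50 := by
  cases B with
  | ex N => exact absurd h (by simp [rl1])
  | tl lo hi =>
    obtain ⟨h10, h1, h2⟩ := hB
    refine ⟨h10, fun m h4 hm => ?_⟩
    have h5 := chR_sound h10 h1 h2 (l := l) h (m - 1) (by omega) (by omega)
    have e : m - 1 - 3 = m - 4 := by omega
    rwa [e] at h5

theorem rlC_ok {a b c : Lb} (ha : a.has p) (hb : b.has q) (hc : c.has r)
    {RL : List (List (ℕ × ℕ))} (h : rlC p q r a b c RL = true) :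
    RTab p q r RL ∧ 10 ≤ p ∧ 10 ≤ q ∧ 10 ≤ r := by
  unfold rlC at h
  simp only [Bool.and_eq_true] at h
  obtain ⟨h1, h2, h3⟩ := h
  obtain ⟨a1, a2⟩ := rl1_ok h1 ha
  obtain ⟨b1, b2⟩ := rl1_ok h2 hb
  obtain ⟨c1, c2⟩ := rl1_ok h3 hc
  refine ⟨?_, a1, b1, c1⟩
  intro i j hij m h4 hm
  fin_cases i <;> fin_cases j
  · exact absurd rfl hij
  · exact a2 m h4 hm
  · exact c2 m h4 hm
  · exact a2 m h4 hm
  · exact absurd rfl hij
  · exact b2 m h4 hm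
  · exact c2 m h4 hm
  · exact b2 m h4 hm
  · exact absurd rfl hij

theorem ML_ge4 (hp : 10 ≤ p) (hq : 10 ≤ q) (hr : 10 ≤ r) : ∀ s, DG s → 4 ≤ ML p q r s := by
  have key : ∀ i j : Fin 3, i ≠ j → 4 ≤ mm p q r i j := by
    intro i j hij
    fin_cases i <;> fin_cases j <;> simp_all [mm] <;> omega
  intro s hs
  exact key _ _ (fun e => hs.2.2 e.symm)

/-- the label of a known order -/
theorem lbx_has (M : ℕ) (h : 10 ≤ M) (h' : M ≤ 15) :
    (Lb.tl (kbx M - 1) (kbx M + 1)).has M := by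
  have h1 := kapx M (by omega) h'
  have h2 : 1 ≤ kbx M := by
    interval_cases M <;> decide
  have e : 2 ^ 48 * Kp M - (kbx M : ℝ) = 2 ^ 48 * (Kp M - (kbx M : ℝ) / 2 ^ 48) := by
    field_simp
  have h3 : |2 ^ 48 * Kp M - (kbx M : ℝ)| ≤ 1 := by
    rw [e, abs_mul, abs_of_pos (by positivity : (0 : ℝ) < 2 ^ 48)]
    have h4 := mul_le_mul_of_nonneg_left h1 (by positivity : (0 : ℝ) ≤ 2 ^ 48)
    refine h4.trans (le_of_eq ?_)
    norm_num
  rw [abs_le] at h3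
  refine ⟨h, ?_, ?_⟩
  · rw [Nat.cast_sub h2, Nat.cast_one]
    linarith [h3.1]
  · push_cast
    linarith [h3.2]

/-- the label of a known order -/
theorem lby_has (M : ℕ) (h : 10 ≤ M) (h' : M ≤ 40) :
    (Lb.tl (kby M - 1) (kby M + 1)).has M := by
  have h1 := kapy M (by omega) h'
  have h2 : 1 ≤ kby M := by
    interval_cases M <;> decide
  have e : 2 ^ 48 * Kp M - (kby M : ℝ) = 2 ^ 48 * (Kp M - (kby M : ℝ) / 2 ^ 48) := by
    field_simp
  have h3 : |2 ^ 48 * Kp M - (kby M : ℝ)| ≤ 1 := by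
    rw [e, abs_mul, abs_of_pos (by positivity : (0 : ℝ) < 2 ^ 48)]
    have h4 := mul_le_mul_of_nonneg_left h1 (by positivity : (0 : ℝ) ≤ 2 ^ 48)
    refine h4.trans (le_of_eq ?_)
    norm_num
  rw [abs_le] at h3
  refine ⟨h, ?_, ?_⟩
  · rw [Nat.cast_sub h2, Nat.cast_one]
    linarith [h3.1]
  · push_cast
    linarith [h3.2]

/-! ### the theorems of the modules -/

section

variable {α β P v γ : Type} {D : ℕ} {lC : α → Vt (D + 1) → Cx} {lf : α → Vt (D + 1) → ℂ}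
  {mf : (ℕ → ℝ) → β → (ℕ → ℝ) → ℝ} {lp : P → Vt (D + 1) → P9} {lv : v → Vt (D + 1) → VR}
  {lg : γ → Vt (D + 1) → ℕ} {Sa : α → List Bool → Prop} {Sp : P → List Bool → Prop}
  {Sv' : v → List Bool → Prop} {Sg : γ → List Bool → Prop} {M : Mc α β P v γ}
  {S : Sv P} {W : Vx β} {Y : ℕ → ℕ → α} {qd : ℕ → Cx → Cx → Cx → α} {rt : α → Bool}

/-- constant line, known orders `≥ 10`: walls, single runs of two letters -/
theorem nearD_1 {X : XM α v}
    (hZ : MZ D lC lf mf lp lv lg Sa Sp Sv' Sg M X.Q X.c X.r S W Y qd rt) {ONE : β}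
    (h1 : ON mf ONE) {F : FTT α β (FDT β)} (hF : FamTOK (D + 1) lf mf F) {a b c : Lb}
    (ha : a.has p) (hb : b.has q) (hc : c.has r)
    {s0 s1 s2 : KS} {Xz : Z} {n : ℕ} (hx : modXE M rt D X Xz n s0 s1 s2 a b c = true)
    (e0 : X.k0 = s0.mo M.A qd) (e1 : X.k1 = s1.mo M.A qd) (e2 : X.k2 = s2.mo M.A qd) {x0 : ℝ}
    (hX : |2 ^ 48 * x0 - (zv Xz : ℝ)| ≤ (n : ℝ)) (hT : Thr p q r x0)
    {W0 W1 W2 : WN} {RL : List (List (ℕ × ℕ))} (hRL : rlC p q r a b c RL = true)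
    {G : TProg} {il : List IT} {sl : List ℕ} {le : List LT2}
    (hm : modD1 p q r a b c W0 W1 W2 RL G il sl le = true)
    {f0 f1 f2 : Bool} (g0 : f0 = W0.f) (g1 : f1 = W1.f) (g2 : f2 = W2.f)
    {l : List (NDT α β (FDT β))} (hl : l ≠ []) {As : List NA}
    (hs : sideLT (sideNT W0 W1 W2 (sideT W le)) l As = true) {y e : ℕ}
    (H : chkPNT M S W Y F f0 f1 f2 X.k0 X.k1 X.k2 (mkCls M.A X.k0 X.k1 X.k2) (expandX X G)
      (cX M.A Xz n) sl le ONE il e l y = true) :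
    TCell p q r x0 ((y : ℝ) / 2 ^ 48) ((e : ℝ) / 2 ^ 48) := by
  have hC := cld_E (X := X) hZ ha hb hc hx e0 e1 e2 hX
  obtain ⟨hR, p10, q10, r10⟩ := rlC_ok ha hb hc hRL
  refine nearT_X hZ h1 hF (by omega) (by omega) (by omega) hC hT.gt hT.le hT.A1 hT.A2 hT.A3
    ?_ g0 g1 g2 hl hs H
  intro z hz hz1 K hP hI hfam
  exact ⟨_, near_cert1 (by omega) (by omega) (by omega) (ML_ge4 p10 q10 r10) ha hb hc hz hz1 hP
    hR hm hI hfam⟩

/-- constant line, known orders `≥ 10`: walls and a chain for the runs of two letters -/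
theorem nearD_C {X : XM α v}
    (hZ : MZ D lC lf mf lp lv lg Sa Sp Sv' Sg M X.Q X.c X.r S W Y qd rt) {ONE : β}
    (h1 : ON mf ONE) {F : FTT α β (FDT β)} (hF : FamTOK (D + 1) lf mf F) {a b c : Lb}
    (ha : a.has p) (hb : b.has q) (hc : c.has r)
    {s0 s1 s2 : KS} {Xz : Z} {n : ℕ} (hx : modXE M rt D X Xz n s0 s1 s2 a b c = true)
    (e0 : X.k0 = s0.mo M.A qd) (e1 : X.k1 = s1.mo M.A qd) (e2 : X.k2 = s2.mo M.A qd) {x0 : ℝ}
    (hX : |2 ^ 48 * x0 - (zv Xz : ℝ)| ≤ (n : ℝ)) (hT : Thr p q r x0)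
    {W0 W1 W2 : WN} {cB : Ch} {RL : List (List (ℕ × ℕ))} (hRL : rlC p q r a b c RL = true)
    {G : TProg} {il : List IT} {sl : List ℕ} {le : List LT2}
    (hm : modDC p q r a b c W0 W1 W2 cB RL G il sl le = true)
    {f0 f1 f2 : Bool} (g0 : f0 = W0.f) (g1 : f1 = W1.f) (g2 : f2 = W2.f)
    {l : List (NDT α β (FDT β))} (hl : l ≠ []) {As : List NA}
    (hs : sideLT (sideNT W0 W1 W2 (sideT W le)) l As = true) {y e : ℕ}
    (H : chkPNT M S W Y F f0 f1 f2 X.k0 X.k1 X.k2 (mkCls M.A X.k0 X.k1 X.k2) (expandX X G)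
      (cX M.A Xz n) sl le ONE il e l y = true) :
    TCell p q r x0 ((y : ℝ) / 2 ^ 48) ((e : ℝ) / 2 ^ 48) := by
  have hC := cld_E (X := X) hZ ha hb hc hx e0 e1 e2 hX
  obtain ⟨hR, p10, q10, r10⟩ := rlC_ok ha hb hc hRL
  refine nearT_X hZ h1 hF (by omega) (by omega) (by omega) hC hT.gt hT.le hT.A1 hT.A2 hT.A3
    ?_ g0 g1 g2 hl hs H
  intro z hz hz1 K hP hI hfam
  exact ⟨_, near_certDC (by omega) (by omega) (by omega) (ML_ge4 p10 q10 r10) ha hb hc hz hz1 hP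
    hR hm hI hfam⟩

/-- constant line, known orders `≥ 10`: two chains -/
theorem nearD_CC {X : XM α v}
    (hZ : MZ D lC lf mf lp lv lg Sa Sp Sv' Sg M X.Q X.c X.r S W Y qd rt) {ONE : β}
    (h1 : ON mf ONE) {F : FTT α β (FDT β)} (hF : FamTOK (D + 1) lf mf F) {a b c : Lb}
    (ha : a.has p) (hb : b.has q) (hc : c.has r)
    {s0 s1 s2 : KS} {Xz : Z} {n : ℕ} (hx : modXE M rt D X Xz n s0 s1 s2 a b c = true)
    (e0 : X.k0 = s0.mo M.A qd) (e1 : X.k1 = s1.mo M.A qd) (e2 : X.k2 = s2.mo M.A qd) {x0 : ℝ}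
    (hX : |2 ^ 48 * x0 - (zv Xz : ℝ)| ≤ (n : ℝ)) (hT : Thr p q r x0)
    {W0 W1 W2 : WN} {cA cB : Ch} {RL : List (List (ℕ × ℕ))} (hRL : rlC p q r a b c RL = true)
    {G : TProg} {il : List IT} {sl : List ℕ} {le : List LT2}
    (hm : modDCC p q r a b c cA cB RL G il sl le = true)
    {f0 f1 f2 : Bool} (g0 : f0 = W0.f) (g1 : f1 = W1.f) (g2 : f2 = W2.f)
    {l : List (NDT α β (FDT β))} (hl : l ≠ []) {As : List NA}
    (hs : sideLT (sideNT W0 W1 W2 (sideT W le)) l As = true) {y e : ℕ}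
    (H : chkPNT M S W Y F f0 f1 f2 X.k0 X.k1 X.k2 (mkCls M.A X.k0 X.k1 X.k2) (expandX X G)
      (cX M.A Xz n) sl le ONE il e l y = true) :
    TCell p q r x0 ((y : ℝ) / 2 ^ 48) ((e : ℝ) / 2 ^ 48) := by
  have hC := cld_E (X := X) hZ ha hb hc hx e0 e1 e2 hX
  obtain ⟨hR, p10, q10, r10⟩ := rlC_ok ha hb hc hRL
  refine nearT_X hZ h1 hF (by omega) (by omega) (by omega) hC hT.gt hT.le hT.A1 hT.A2 hT.A3
    ?_ g0 g1 g2 hl hs H
  intro z hz hz1 K hP hI _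
  exact ⟨_, near_certDCC (by omega) (by omega) (by omega) (ML_ge4 p10 q10 r10) ha hb hc hz hz1 hP
    hR hm hI⟩

/-- constant line, known orders `≥ 10`: walls and tests of type B -/
theorem nearD_B {X : XM α v}
    (hZ : MZ D lC lf mf lp lv lg Sa Sp Sv' Sg M X.Q X.c X.r S W Y qd rt) {ONE : β}
    (h1 : ON mf ONE) {F : FTT α β (FDT β)} (hF : FamTOK (D + 1) lf mf F) {FB : BXT α β}
    (hFB : BXOK (D + 1) lf mf FB) {a b c : Lb}
    (ha : a.has p) (hb : b.has q) (hc : c.has r)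
    {s0 s1 s2 : KS} {Xz : Z} {n : ℕ} (hx : modXE M rt D X Xz n s0 s1 s2 a b c = true)
    (e0 : X.k0 = s0.mo M.A qd) (e1 : X.k1 = s1.mo M.A qd) (e2 : X.k2 = s2.mo M.A qd) {x0 : ℝ}
    (hX : |2 ^ 48 * x0 - (zv Xz : ℝ)| ≤ (n : ℝ)) (hT : Thr p q r x0) (tB : fB p q r x0 = 0)
    {W0 W1 W2 : WN} {RL : List (List (ℕ × ℕ))} (hRL : rlC p q r a b c RL = true)
    {G : TProg} {il : List IT} {sl : List ℕ} {le : List LT2}
    (hm : modDB p q r a b c W0 W1 W2 RL G il sl le = true)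
    {f0 f1 f2 : Bool} (g0 : f0 = W0.f) (g1 : f1 = W1.f) (g2 : f2 = W2.f)
    {l : List (NBT α β (FDT β))} (hl : l ≠ []) {As : List NAB}
    (hs : sideLB (sideNBX kD p q r W0 W1 W2 (sideT W le)) l As = true) {y e : ℕ}
    (H : chkPNB M S W Y F FB f0 f1 f2 X.k0 X.k1 X.k2 (mkCls M.A X.k0 X.k1 X.k2) (expandX X G)
      (cX M.A Xz n) sl le ONE il e l y = true) :
    TCell p q r x0 ((y : ℝ) / 2 ^ 48) ((e : ℝ) / 2 ^ 48) := by
  have hC := cld_E (X := X) hZ ha hb hc hx e0 e1 e2 hX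
  obtain ⟨hR, p10, q10, r10⟩ := rlC_ok ha hb hc hRL
  refine nearT_Y hZ h1 hF hFB (by omega) (by omega) (by omega) hC hT.gt hT.le hT.A1 hT.A2 hT.A3
    tB ?_ g0 g1 g2 hl hs H
  intro z hz hz1 K hP hI hfam hB
  exact ⟨_, near_certDB (by omega) (by omega) (by omega) (ML_ge4 p10 q10 r10) ha hb hc hz hz1 hP
    hR hm hI hfam hB⟩

end

end Pool.Agent.Helper39.D0
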